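import Pool.Agent.H75C.HY.TRG
import Pool.Agent.Helper48.HY.PartD

/-!
# Piece D5 of project TR: the step of the game runs in polynomial time (helper16)
-/

set_option autoImplicit false
set_option synthInstance.maxSize 4000

namespace Pool.Agent.Helper16.TR5

open Pool.Agent.NPC Pool.Agent.H75C.HY Pool.Agent.Helper48.HY

section

variable {α β γ : Type} [TEnc α] [TEnc β] [TEnc γ]

theorem kk (b : β) : NPC.Poly (fun _ : α => b) := NPC.Poly.const b

theorem ii : NPC.Poly (fun a : α => a) := NPC.Poly.id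

theorem p1 {f : α → β × γ} (hf : NPC.Poly f) : NPC.Poly (fun a => (f a).1) := NPC.Poly.fst hf

theorem p2 {f : α → β × γ} (hf : NPC.Poly f) : NPC.Poly (fun a => (f a).2) := NPC.Poly.snd hf

theorem pp {f : α → β} {g : α → γ} (hf : NPC.Poly f) (hg : NPC.Poly g) :
    NPC.Poly (fun a => (f a, g a)) := NPC.Poly.pair hf hg

theorem dm [DecidableEq β] {f : α → β} {l : α → List β} {inst : ∀ a, Decidable (f a ∈ l a)}
    (hf : NPC.Poly f) (hl : NPC.Poly l) : NPC.Poly (fun a => @decide (f a ∈ l a) (inst a)) :=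
  (NPC.Poly.decide_mem hf hl).congr fun _ => decide_eq_decide.2 Iff.rfl

theorem q_N {c : α → TR.Cl} (hc : NPC.Poly c) : NPC.Poly (fun a => TR.N (c a)) := p1 (p1 (p2 hc))

theorem q_envc {c : α → TR.Cl} {B : α → List ℕ} (hc : NPC.Poly c) (hB : NPC.Poly B) :
    NPC.Poly (fun a => TR.envc (c a) (B a)) := by
  unfold TR.envc
  exact NPC.Poly.append (NPC.Poly.map (F := fun a x => (x, TR.N (c a))) hB
    (pp (p2 ii) (q_N (hc.comp (p1 ii))))) (p2 (p2 hc))

theorem q_sp {SC : α → List TR.Sp} {i : α → ℕ} (hS : NPC.Poly SC) (hi : NPC.Poly i) :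
    NPC.Poly (fun a => TR.sp (SC a) (i a)) := by
  unfold TR.sp
  exact NPC.Poly.getD hS hi (kk _)

theorem q_cl {SC : α → List TR.Sp} {i : α → ℕ} (hS : NPC.Poly SC) (hi : NPC.Poly i) :
    NPC.Poly (fun a => TR.cl (SC a) (i a)) := p1 (q_sp hS hi)

theorem q_ab {SC : α → List TR.Sp} {i : α → ℕ} (hS : NPC.Poly SC) (hi : NPC.Poly i) :
    NPC.Poly (fun a => TR.ab (SC a) (i a)) := p1 (p2 (q_sp hS hi))

theorem q_fl {SC : α → List TR.Sp} {i : α → ℕ} (hS : NPC.Poly SC) (hi : NPC.Poly i) :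
    NPC.Poly (fun a => TR.fl (SC a) (i a)) := p2 (p2 (q_sp hS hi))

theorem q_ms {w : α → List Tok} (hw : NPC.Poly w) : NPC.Poly (fun a => (w a).map Prod.snd) :=
  NPC.Poly.map (F := fun _ (t : Tok) => t.2) hw (p2 (p2 ii))

theorem q_vk {w : α → List Tok} {k : α → TR.Key} (hw : NPC.Poly w) (hk : NPC.Poly k) :
    NPC.Poly (fun a => TR.vk (w a) (k a)) := by
  unfold TR.vk
  exact NPC.Poly.and (NPC.Poly.and (NPC.Poly.and
    (NPC.Poly.decide_le (NPC.Poly.length (p1 hk)) (NPC.Poly.length hw))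
    (NPC.Poly.all (p := fun a t => decide (t ∈ w a)) (p1 hk) (dm (p2 ii) (hw.comp (p1 ii)))))
    (NPC.Poly.decide_le (NPC.Poly.length (p2 hk)) (NPC.Poly.length hw)))
    (NPC.Poly.all (p := fun a x => decide (x ∈ (w a).map Prod.snd)) (p2 hk)
      (dm (p2 ii) ((q_ms hw).comp (p1 ii))))

theorem q_vz {L : α → ℕ} {Z : α → List ℕ} (hL : NPC.Poly L) (hZ : NPC.Poly Z) :
    NPC.Poly (fun a => TR.vz (L a) (Z a)) := by
  unfold TR.vz
  exact NPC.Poly.and (NPC.Poly.decide_le (NPC.Poly.length hZ) hL)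
    (NPC.Poly.all (p := fun a z => decide (z < L a)) hZ
      (NPC.Poly.decide_lt (p2 ii) (hL.comp (p1 ii))))

theorem q_vf {w : α → List Tok} {L : α → ℕ} {m : α → TR.Fls} (hw : NPC.Poly w)
    (hL : NPC.Poly L) (hm : NPC.Poly m) : NPC.Poly (fun a => TR.vf (w a) (L a) (m a)) := by
  have h : NPC.Poly (fun x : α × (TR.Key × Bool) => TR.vk (w x.1) x.2.1) :=
    q_vk (w := fun x : α × (TR.Key × Bool) => w x.1)
      (k := fun x : α × (TR.Key × Bool) => x.2.1) (hw.comp (p1 ii)) (p1 (p2 ii))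
  unfold TR.vf
  exact NPC.Poly.and (NPC.Poly.decide_le (NPC.Poly.length hm) hL)
    (NPC.Poly.all (p := fun a f => TR.vk (w a) f.1) hm h)

theorem q_vl {w : α → List Tok} {L : α → ℕ} {l : α → List (ℕ × ℕ)} (hw : NPC.Poly w)
    (hL : NPC.Poly L) (hl : NPC.Poly l) : NPC.Poly (fun a => TR.vl (w a) (L a) (l a)) := by
  unfold TR.vl
  exact NPC.Poly.and (NPC.Poly.decide_le (NPC.Poly.length hl) hL)
    (NPC.Poly.all (p := fun a p => decide (p.1 ∈ (w a).map Prod.snd) && decide (p.2 < L a)) hl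
      (NPC.Poly.and (dm (p1 (p2 ii)) ((q_ms hw).comp (p1 ii)))
        (NPC.Poly.decide_lt (p2 (p2 ii)) (hL.comp (p1 ii)))))

theorem q_vcl {w : α → List Tok} {L : α → ℕ} {c : α → TR.Cl} (hw : NPC.Poly w)
    (hL : NPC.Poly L) (hc : NPC.Poly c) : NPC.Poly (fun a => TR.vcl (w a) (L a) (c a)) := by
  unfold TR.vcl
  exact NPC.Poly.and (NPC.Poly.and (NPC.Poly.and (NPC.Poly.decide_le (q_N hc) hL)
    (q_vl hw hL (p1 (p2 (p1 (p2 hc)))))) (q_vl hw hL (p2 (p2 (p1 (p2 hc)))))) (q_vl hw hL (p2 (p2 hc)))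

theorem q_vsp {w : α → List Tok} {L : α → ℕ} {s : α → TR.Sp} (hw : NPC.Poly w)
    (hL : NPC.Poly L) (hs : NPC.Poly s) : NPC.Poly (fun a => TR.vsp (w a) (L a) (s a)) := by
  unfold TR.vsp
  exact NPC.Poly.and (NPC.Poly.and (q_vcl hw hL (p1 hs)) (q_vz hL (p1 (p2 hs))))
    (q_vf hw hL (p2 (p2 hs)))

theorem q_subb [DecidableEq β] {l l' : α → List β} (hl : NPC.Poly l) (hl' : NPC.Poly l') :
    NPC.Poly (fun a => TR.subb (l a) (l' a)) := by
  unfold TR.subb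
  exact NPC.Poly.all (p := fun a b => decide (b ∈ l' a)) hl (dm (p2 ii) (hl'.comp (p1 ii)))

theorem q_clokb {c : α → TR.Cl} (hc : NPC.Poly c) : NPC.Poly (fun a => TR.clokb (c a)) := by
  unfold TR.clokb
  exact NPC.Poly.or (p1 hc) (NPC.Poly.decide_eq (q_N hc) (kk 1))

theorem q_fin {r : α → Bool} (hr : NPC.Poly r) : NPC.Poly (fun a => TR.fin (r a)) := by
  unfold TR.fin
  exact pp (pp (NPC.Poly.some hr) (kk 0)) (kk _)

theorem q_evS {c : α → TR.Cl} {mc : α → TR.Fls} {k : α → TR.Key} {v : α → ℕ} {b : α → Bool}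
    (hc : NPC.Poly c) (hmc : NPC.Poly mc) (hk : NPC.Poly k) (hv : NPC.Poly v) (hb : NPC.Poly b) :
    NPC.Poly (fun a => TR.evS (c a) (mc a) (k a) (v a) (b a)) := by
  unfold TR.evS
  exact pp (kk _) (pp (kk _) (pp (kk _) (pp hc (pp hmc (pp (p1 hk) (pp (p2 hk)
    (pp (q_envc hc (p2 hk)) (pp hv hb))))))))

theorem q_ndS {J : α → List TR.Key} {k : α → TR.Key} (hJ : NPC.Poly J) (hk : NPC.Poly k) :
    NPC.Poly (fun a => TR.ndS (J a) (k a)) := by
  unfold TR.ndS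
  exact pp (kk _) (pp (pp (kk _) hJ) (pp (kk _) (pp (kk _) (pp (kk _) (pp (p1 hk) (pp (p2 hk)
    (kk _)))))))

theorem q_chl {M : α → List Bool} (hM : NPC.Poly M) : NPC.Poly (fun a => TR.chl (M a)) := by
  have h1 : NPC.Poly (fun a => unbits (ℕ × ℕ × ℕ × ℕ × ℕ × Bool) (unpair (M a)).1) :=
    poly_unbits.comp (p1 (poly_unpair.comp hM))
  refine (NPC.Poly.optCases (g := fun _ => ((0, 0, 0, 0, 0, false) : ℕ × ℕ × ℕ × ℕ × ℕ × Bool))
    (h := fun _ b => b) h1 (kk _) (p2 ii)).congr fun a => ?_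
  unfold TR.chl
  cases unbits (ℕ × ℕ × ℕ × ℕ × ℕ × Bool) (unpair (M a)).1 <;> rfl

theorem q_att {wf : List Tok → Bool} (hwf : NPC.Poly wf) {w : α → List Tok}
    {J : α → List TR.Key} {c : α → TR.Cl} {mc m : α → TR.Fls} {k u : α → ℕ} {b : α → Bool}
    (hw : NPC.Poly w) (hJ : NPC.Poly J) (hc : NPC.Poly c) (hmc : NPC.Poly mc) (hm : NPC.Poly m)
    (hk : NPC.Poly k) (hu : NPC.Poly u) (hb : NPC.Poly b) :
    NPC.Poly (fun a => TR.att wf (w a) (J a) (c a) (mc a) (m a) (k a) (u a) (b a)) := by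
  have hg : NPC.Poly (fun a => (J a).getD (k a) ([], [])) := NPC.Poly.getD hJ hk (kk _)
  unfold TR.att
  refine NPC.Poly.ite (NPC.Poly.decide_and (NPC.Poly.decide_lt hk (NPC.Poly.length hJ))
    (NPC.Poly.decide_and (NPC.Poly.decide_lt hu (q_N hc)) (NPC.Poly.decide_and
      (NPC.Poly.decide_bool (hwf.comp (p1 hg))) (NPC.Poly.decide_not (dm (pp hg hb) hm)))))
    (NPC.Poly.ite (NPC.Poly.decide_bool (q_vk hw hg)) (q_evS hc hmc hg hu (NPC.Poly.not hb))
      (q_fin (kk _))) (q_fin (kk _))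

theorem q_ph0 {M : α → List Bool} (hM : NPC.Poly M) : NPC.Poly (fun a => TR.ph0 (M a)) := by
  have h1 : NPC.Poly (fun a => unbits (List TR.Sp × List TR.Key × ℕ) (unpair (M a)).1) :=
    poly_unbits.comp (p1 (poly_unpair.comp hM))
  have hd : NPC.Poly (fun p : α × (List TR.Sp × List TR.Key × ℕ) =>
      if 0 < p.2.1.length ∧ p.2.2.2 < TR.N (TR.cl p.2.1 0) then
        (((none, 1), (p.2.1, p.2.2.1), TR.cf0,
          (TR.ev0.1, [], [], [], [], p.2.2.2, false)) : TR.Gs) else TR.fin false) := by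
    have g : NPC.Poly (fun p : α × (List TR.Sp × List TR.Key × ℕ) => p.2) := p2 ii
    refine NPC.Poly.ite (NPC.Poly.decide_and (NPC.Poly.decide_lt (kk 0) (NPC.Poly.length (p1 g)))
      (NPC.Poly.decide_lt (p2 (p2 g)) (q_N (q_cl (p1 g) (kk 0))))) ?_ (kk _)
    exact pp (kk _) (pp (pp (p1 g) (p1 (p2 g))) (pp (kk _) (pp (kk _) (pp (kk _) (pp (kk _)
      (pp (kk _) (pp (kk _) (pp (p2 (p2 g)) (kk _)))))))))
  refine (NPC.Poly.optCases (g := fun _ => TR.fin false)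
    (h := fun _ (d : List TR.Sp × List TR.Key × ℕ) =>
      if 0 < d.1.length ∧ d.2.2 < TR.N (TR.cl d.1 0) then
        (((none, 1), (d.1, d.2.1), TR.cf0,
          (TR.ev0.1, [], [], [], [], d.2.2, false)) : TR.Gs) else TR.fin false) h1 (kk _)
    hd).congr fun a => ?_
  unfold TR.ph0
  cases unbits (List TR.Sp × List TR.Key × ℕ) (unpair (M a)).1 <;> rfl

theorem q_ph1 {wf : List Tok → Bool} (hwf : NPC.Poly wf) {w : α → List Tok}
    {SC : α → List TR.Sp} {J : α → List TR.Key} {v0 L : α → ℕ}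
    {x : α → ℕ × ℕ × ℕ × ℕ × ℕ × Bool} (hw : NPC.Poly w) (hS : NPC.Poly SC) (hJ : NPC.Poly J)
    (hv : NPC.Poly v0) (hL : NPC.Poly L) (hx : NPC.Poly x) :
    NPC.Poly (fun a => TR.ph1 wf (w a) (SC a) (J a) (v0 a) (L a) (x a)) := by
  have x1 := p1 hx
  have x2 := p1 (p2 hx)
  have x3 := p1 (p2 (p2 hx))
  have x4 := p1 (p2 (p2 (p2 hx)))
  have x5 := p1 (p2 (p2 (p2 (p2 hx))))
  have x6 := p2 (p2 (p2 (p2 (p2 hx))))
  have e : ∀ n : ℕ, NPC.Poly (fun a => decide ((x a).1 = n)) := fun n =>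
    NPC.Poly.decide_eq x1 (kk n)
  have hg : NPC.Poly (fun a => (J a).getD (x a).2.2.2.1 ([], [])) := NPC.Poly.getD hJ x4 (kk _)
  have ft : NPC.Poly (fun _ : α => TR.fin true) := kk _
  have ff : NPC.Poly (fun _ : α => TR.fin false) := kk _
  have c2 := q_cl hS x2
  have c3 := q_cl hS x3
  have a2 := q_ab hS x2
  have a3 := q_ab hS x3
  have f2 := q_fl hS x2
  have f3 := q_fl hS x3
  have v2 : NPC.Poly (fun a => TR.vsp (w a) (L a) (TR.sp (SC a) (x a).2.1)) :=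
    q_vsp hw hL (q_sp hS x2)
  have v3 : NPC.Poly (fun a => TR.vsp (w a) (L a) (TR.sp (SC a) (x a).2.2.1)) :=
    q_vsp hw hL (q_sp hS x3)
  have lS : NPC.Poly (fun a => (SC a).length) := NPC.Poly.length hS
  have n2 := q_N c2
  have n3 := q_N c3
  unfold TR.ph1
  refine NPC.Poly.ite (e 0) (NPC.Poly.ite (NPC.Poly.decide_bool (q_vsp hw hL (q_sp hS (kk 0))))
    (q_evS (q_cl hS (kk 0)) (q_fl hS (kk 0)) (pp hw (kk _)) hv (kk _)) ff) ?_
  refine NPC.Poly.ite (e 1) (q_ndS hJ (pp hw (kk _))) ?_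
  refine NPC.Poly.ite (e 2) (NPC.Poly.ite (NPC.Poly.decide_and
    (NPC.Poly.decide_lt x4 (NPC.Poly.length hJ)) (NPC.Poly.decide_bool (hwf.comp (p1 hg))))
    (NPC.Poly.ite (NPC.Poly.decide_bool (q_vk hw hg)) (q_ndS hJ hg) ff) ft) ?_
  refine NPC.Poly.ite (NPC.Poly.decide_lt x2 lS) ?_ ft
  refine NPC.Poly.ite (e 3) (q_fin (NPC.Poly.and (q_clokb c2) (NPC.Poly.decide_not (dm x2 a2)))) ?_
  refine NPC.Poly.ite (e 4) (NPC.Poly.ite (NPC.Poly.decide_and (NPC.Poly.decide_lt x3 lS)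
    (NPC.Poly.decide_not (NPC.Poly.decide_eq x2 x3))) (q_fin ?_) ft) ?_
  · exact NPC.Poly.and (NPC.Poly.and (NPC.Poly.and v2 v3) (NPC.Poly.not (NPC.Poly.and
      (NPC.Poly.decide_lt (poly_lk (p2 (p2 (p1 (p2 c2)))) n2 x4) n2)
      (NPC.Poly.decide_lt (poly_lk (p2 (p2 (p1 (p2 c3)))) n3 x4) n3))))
      (NPC.Poly.not (NPC.Poly.and
        (NPC.Poly.decide_lt (poly_lk (p2 (p2 c2)) n2 x4) n2)
        (NPC.Poly.decide_lt (poly_lk (p2 (p2 c3)) n3 x4) n3)))
  refine NPC.Poly.ite (e 5) (NPC.Poly.ite (NPC.Poly.decide_eq v2 (kk false)) ff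
    (NPC.Poly.ite (dm x3 a2) (q_fin (NPC.Poly.and (NPC.Poly.and (NPC.Poly.decide_lt x3 lS)
      (q_subb a3 a2)) (q_subb f3 f2))) ft)) ?_
  refine NPC.Poly.ite (e 6) (NPC.Poly.ite (dm x3 a2) (NPC.Poly.ite (NPC.Poly.decide_bool v3)
    (q_att hwf hw hJ c3 f3 f2 x4 x5 x6) ff) ft) ?_
  refine NPC.Poly.ite (e 7) (NPC.Poly.ite (NPC.Poly.decide_bool v2) ?_ ff) ft
  exact pp (kk _) (pp (pp hS hJ) (pp (pp a2 (pp f2 (kk _))) (kk _)))

theorem q_ph2 {wf : List Tok → Bool} (hwf : NPC.Poly wf) {w : α → List Tok}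
    {SC : α → List TR.Sp} {J : α → List TR.Key} {Z : α → List ℕ} {m : α → TR.Fls} {k : α → ℕ}
    (hw : NPC.Poly w) (hS : NPC.Poly SC) (hJ : NPC.Poly J) (hZ : NPC.Poly Z) (hm : NPC.Poly m)
    (hk : NPC.Poly k) :
    NPC.Poly (fun a => TR.ph2 wf (w a) (SC a) (J a) (Z a) (m a) (k a)) := by
  have hg : NPC.Poly (fun a => (m a).getD (k a) (([], []), false)) := NPC.Poly.getD hm hk (kk _)
  unfold TR.ph2
  refine NPC.Poly.ite (NPC.Poly.decide_and (NPC.Poly.decide_lt hk (NPC.Poly.length hm))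
    (NPC.Poly.decide_and (dm (p1 hg) hJ) (NPC.Poly.decide_bool (hwf.comp (p1 (p1 hg))))))
    (NPC.Poly.ite (NPC.Poly.decide_bool (q_vk hw (p1 hg))) ?_ (kk _)) (kk _)
  exact pp (kk _) (pp (pp hS hJ) (pp (pp hZ (pp hm hg)) (kk _)))

theorem q_ph3 {wf : List Tok → Bool} (hwf : NPC.Poly wf) {w : α → List Tok}
    {SC : α → List TR.Sp} {J : α → List TR.Key} {Z : α → List ℕ} {m : α → TR.Fls}
    {κ : α → TR.Key × Bool} {M : α → List Bool} {x : α → ℕ × ℕ × ℕ × ℕ × ℕ × Bool}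
    (hw : NPC.Poly w) (hS : NPC.Poly SC) (hJ : NPC.Poly J) (hZ : NPC.Poly Z) (hm : NPC.Poly m)
    (hκ : NPC.Poly κ) (hM : NPC.Poly M) (hx : NPC.Poly x) :
    NPC.Poly (fun a => TR.ph3 wf (w a) (SC a) (J a) (Z a) (m a) (κ a) (M a) (x a)) := by
  have h1 : NPC.Poly (fun a => unbits TR.An (unpair (M a)).1) :=
    poly_unbits.comp (p1 (poly_unpair.comp hM))
  have key : NPC.Poly (fun p : α × TR.An =>
      if TR.vk (w p.1) (κ p.1).1 = false then TR.fin false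
      else if p.2.1.1 = false then
        if p.2.1.2.1 ∈ Z p.1 ∧ p.2.1.2.2 < TR.N (TR.cl (SC p.1) p.2.1.2.1) ∧
            TR.vsp (w p.1) (M p.1).length (TR.sp (SC p.1) p.2.1.2.1) = true then
          TR.evS (TR.cl (SC p.1) p.2.1.2.1) (TR.fl (SC p.1) p.2.1.2.1) (κ p.1).1 p.2.1.2.2
            (κ p.1).2
        else TR.fin false
      else if TR.clokb p.2.2.1 = true ∧ p.2.2.1.2.1.2.2 = [] ∧ p.2.2.1.2.2 = [] ∧
          TR.subb p.2.2.2.1 (Z p.1) = true ∧ TR.subb p.2.2.2.2.1 (m p.1) = true ∧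
          p.2.2.2.2.2 < TR.N p.2.2.1 ∧ TR.N p.2.2.1 ≤ (M p.1).length then
        if (x p.1).1 = 0 then TR.evS p.2.2.1 p.2.2.2.2.1 (κ p.1).1 p.2.2.2.2.2 (κ p.1).2
        else if (x p.1).1 = 1 then
          TR.att wf (w p.1) (J p.1) p.2.2.1 p.2.2.2.2.1 (m p.1) (x p.1).2.2.2.1
            (x p.1).2.2.2.2.1 (x p.1).2.2.2.2.2
        else if (x p.1).1 = 2 then
          if (x p.1).2.2.1 ∈ p.2.2.2.1 then
            TR.fin (decide ((x p.1).2.2.1 < (SC p.1).length) &&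
              TR.subb (TR.ab (SC p.1) (x p.1).2.2.1) p.2.2.2.1 &&
              TR.subb (TR.fl (SC p.1) (x p.1).2.2.1) p.2.2.2.2.1)
          else TR.fin true
        else if (x p.1).1 = 3 then
          if (x p.1).2.2.1 ∈ p.2.2.2.1 then
            if TR.vsp (w p.1) (M p.1).length (TR.sp (SC p.1) (x p.1).2.2.1) = true then
              TR.att wf (w p.1) (J p.1) (TR.cl (SC p.1) (x p.1).2.2.1)
                (TR.fl (SC p.1) (x p.1).2.2.1) p.2.2.2.2.1 (x p.1).2.2.2.1 (x p.1).2.2.2.2.1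
                (x p.1).2.2.2.2.2
            else TR.fin false
          else TR.fin true
        else if (x p.1).1 = 4 then
          if TR.subb (Z p.1) p.2.2.2.1 = true ∧ TR.subb (m p.1) p.2.2.2.2.1 = true then
            TR.fin true
          else (((none, 2), (SC p.1, J p.1),
            (p.2.2.2.1, p.2.2.2.2.1, (([], []), false)), TR.ev0) : TR.Gs)
        else TR.fin true
      else TR.fin false) := by
    have g : NPC.Poly (fun p : α × TR.An => p.1) := p1 ii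
    have d : NPC.Poly (fun p : α × TR.An => p.2) := p2 ii
    have d1 := p1 (p1 d)
    have di := p1 (p2 (p1 d))
    have du := p2 (p2 (p1 d))
    have dc := p1 (p2 d)
    have dZ := p1 (p2 (p2 d))
    have dm' := p1 (p2 (p2 (p2 d)))
    have dv := p2 (p2 (p2 (p2 d)))
    have gw := hw.comp g
    have gS := hS.comp g
    have gJ := hJ.comp g
    have gZ := hZ.comp g
    have gm := hm.comp g
    have gκ := hκ.comp g
    have gM := hM.comp g
    have gx := hx.comp g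
    have gL : NPC.Poly (fun p : α × TR.An => (M p.1).length) := NPC.Poly.length gM
    have x3 := p1 (p2 (p2 gx))
    have x4 := p1 (p2 (p2 (p2 gx)))
    have x5 := p1 (p2 (p2 (p2 (p2 gx))))
    have x6 := p2 (p2 (p2 (p2 (p2 gx))))
    have e : ∀ n : ℕ, NPC.Poly (fun p : α × TR.An => decide ((x p.1).1 = n)) := fun n =>
      NPC.Poly.decide_eq (p1 gx) (kk n)
    refine NPC.Poly.ite (NPC.Poly.decide_eq (q_vk gw (p1 gκ)) (kk false)) (kk _) ?_
    refine NPC.Poly.ite (NPC.Poly.decide_eq d1 (kk false)) ?_ ?_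
    · refine NPC.Poly.ite (NPC.Poly.decide_and (dm di gZ) (NPC.Poly.decide_and
        (NPC.Poly.decide_lt du (q_N (q_cl gS di)))
        (NPC.Poly.decide_bool (q_vsp gw gL (q_sp gS di))))) ?_ (kk _)
      exact q_evS (q_cl gS di) (q_fl gS di) (p1 gκ) du (p2 gκ)
    refine NPC.Poly.ite (NPC.Poly.decide_and (NPC.Poly.decide_bool (q_clokb dc))
      (NPC.Poly.decide_and (NPC.Poly.decide_eq (p2 (p2 (p1 (p2 dc)))) (kk []))
      (NPC.Poly.decide_and (NPC.Poly.decide_eq (p2 (p2 dc)) (kk []))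
      (NPC.Poly.decide_and (NPC.Poly.decide_bool (q_subb dZ gZ))
      (NPC.Poly.decide_and (NPC.Poly.decide_bool (q_subb dm' gm))
      (NPC.Poly.decide_and (NPC.Poly.decide_lt dv (q_N dc))
        (NPC.Poly.decide_le (q_N dc) gL))))))) ?_ (kk _)
    refine NPC.Poly.ite (e 0) (q_evS dc dm' (p1 gκ) dv (p2 gκ)) ?_
    refine NPC.Poly.ite (e 1) (q_att hwf gw gJ dc dm' gm x4 x5 x6) ?_
    refine NPC.Poly.ite (e 2) (NPC.Poly.ite (dm x3 dZ) (q_fin (NPC.Poly.and (NPC.Poly.and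
      (NPC.Poly.decide_lt x3 (NPC.Poly.length gS)) (q_subb (q_ab gS x3) dZ))
      (q_subb (q_fl gS x3) dm'))) (kk _)) ?_
    refine NPC.Poly.ite (e 3) (NPC.Poly.ite (dm x3 dZ) (NPC.Poly.ite
      (NPC.Poly.decide_bool (q_vsp gw gL (q_sp gS x3)))
      (q_att hwf gw gJ (q_cl gS x3) (q_fl gS x3) dm' x4 x5 x6) (kk _)) (kk _)) ?_
    refine NPC.Poly.ite (e 4) (NPC.Poly.ite (NPC.Poly.decide_and
      (NPC.Poly.decide_bool (q_subb gZ dZ)) (NPC.Poly.decide_bool (q_subb gm dm'))) (kk _)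
      ?_) (kk _)
    exact pp (kk _) (pp (pp gS gJ) (pp (pp dZ (pp dm' (kk _))) (kk _)))
  refine (NPC.Poly.optCases (g := fun _ => TR.fin false) (h := fun a (d : TR.An) =>
      if TR.vk (w a) (κ a).1 = false then TR.fin false
      else if d.1.1 = false then
        if d.1.2.1 ∈ Z a ∧ d.1.2.2 < TR.N (TR.cl (SC a) d.1.2.1) ∧
            TR.vsp (w a) (M a).length (TR.sp (SC a) d.1.2.1) = true then
          TR.evS (TR.cl (SC a) d.1.2.1) (TR.fl (SC a) d.1.2.1) (κ a).1 d.1.2.2 (κ a).2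
        else TR.fin false
      else if TR.clokb d.2.1 = true ∧ d.2.1.2.1.2.2 = [] ∧ d.2.1.2.2 = [] ∧
          TR.subb d.2.2.1 (Z a) = true ∧ TR.subb d.2.2.2.1 (m a) = true ∧
          d.2.2.2.2 < TR.N d.2.1 ∧ TR.N d.2.1 ≤ (M a).length then
        if (x a).1 = 0 then TR.evS d.2.1 d.2.2.2.1 (κ a).1 d.2.2.2.2 (κ a).2
        else if (x a).1 = 1 then
          TR.att wf (w a) (J a) d.2.1 d.2.2.2.1 (m a) (x a).2.2.2.1
            (x a).2.2.2.2.1 (x a).2.2.2.2.2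
        else if (x a).1 = 2 then
          if (x a).2.2.1 ∈ d.2.2.1 then
            TR.fin (decide ((x a).2.2.1 < (SC a).length) &&
              TR.subb (TR.ab (SC a) (x a).2.2.1) d.2.2.1 &&
              TR.subb (TR.fl (SC a) (x a).2.2.1) d.2.2.2.1)
          else TR.fin true
        else if (x a).1 = 3 then
          if (x a).2.2.1 ∈ d.2.2.1 then
            if TR.vsp (w a) (M a).length (TR.sp (SC a) (x a).2.2.1) = true then
              TR.att wf (w a) (J a) (TR.cl (SC a) (x a).2.2.1)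
                (TR.fl (SC a) (x a).2.2.1) d.2.2.2.1 (x a).2.2.2.1 (x a).2.2.2.2.1
                (x a).2.2.2.2.2
            else TR.fin false
          else TR.fin true
        else if (x a).1 = 4 then
          if TR.subb (Z a) d.2.2.1 = true ∧ TR.subb (m a) d.2.2.2.1 = true then
            TR.fin true
          else (((none, 2), (SC a, J a),
            (d.2.2.1, d.2.2.2.1, (([], []), false)), TR.ev0) : TR.Gs)
        else TR.fin true
      else TR.fin false) h1 (kk _) key).congr fun a => ?_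
  unfold TR.ph3
  cases unbits TR.An (unpair (M a)).1 <;> rfl

theorem q_ph4 {E : ℕ → List Bool → Bool} {K : ℕ → ℕ} {argX : List Tok → ℕ → List Tok}
    (hE : NPC.Poly (fun p : ℕ × List Bool => E p.1 p.2)) (hK : NPC.Poly K)
    (hA : NPC.Poly (fun p : List Tok × ℕ => argX p.1 p.2))
    {w : α → List Tok} {c : α → TR.Cl} {mc : α → TR.Fls} {t : α → Tok} {tl : α → List Tok}
    {B : α → List ℕ} {e : α → List (ℕ × ℕ)} {v : α → ℕ} {b : α → Bool} {M M' : α → List Bool}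
    (hw : NPC.Poly w) (hc : NPC.Poly c) (hmc : NPC.Poly mc) (ht : NPC.Poly t)
    (htl : NPC.Poly tl) (hB : NPC.Poly B) (he : NPC.Poly e) (hv : NPC.Poly v) (hb : NPC.Poly b)
    (hM : NPC.Poly M) (hM' : NPC.Poly M') :
    NPC.Poly (fun a => TR.ph4 E K argX (w a) (c a) (mc a) (t a) (tl a) (B a) (e a) (v a) (b a)
      (M a) (M' a)) := by
  have cc : ∀ n : ℕ, NPC.Poly (fun a => decide ((t a).1 = n)) := fun n =>
    NPC.Poly.decide_eq (p1 ht) (kk n)
  have hN := q_N hc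
  have ht2 := p2 ht
  have hm : NPC.Poly (fun a => valB (M a)) := NPC.Poly.valBits hM
  have hm' : NPC.Poly (fun a => valB (M' a)) := NPC.Poly.valBits hM'
  have hEM : NPC.Poly (fun a => E (t a).2 (M a)) := hE.comp (pp ht2 hM)
  have hKt : NPC.Poly (fun a => K (t a).2) := hK.comp ht2
  have hAt : NPC.Poly (fun a => argX (t a :: tl a) (valB (M' a))) :=
    hA.comp (pp (NPC.Poly.cons ht htl) hm')
  have hdl : NPC.Poly (fun a => (tl a).dropLast) :=
    (NPC.Poly.reverse (NPC.Poly.tail (NPC.Poly.reverse htl))).congr fun a => by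
      rw [List.tail_reverse, List.reverse_reverse]
  have nx : ∀ {u : α → List Tok} {B' : α → List ℕ} {e' : α → List (ℕ × ℕ)} {v' : α → ℕ}
      {b' : α → Bool}, NPC.Poly u → NPC.Poly B' → NPC.Poly e' → NPC.Poly v' → NPC.Poly b' →
      NPC.Poly (fun a => (((none, 4), ([], []), TR.cf0,
        (c a, mc a, u a, B' a, e' a, v' a, b' a)) : TR.Gs)) := fun hu hB' he' hv' hb' =>
    pp (kk _) (pp (kk _) (pp (kk _) (pp hc (pp hmc (pp hu (pp hB' (pp he' (pp hv' hb'))))))))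
  unfold TR.ph4
  refine NPC.Poly.ite (cc 0) (q_fin (NPC.Poly.decide_eq (dm (pp ht2 hv) (p1 (p2 (p1 (p2 hc)))))
    hb)) ?_
  refine NPC.Poly.ite (cc 1) (q_fin (NPC.Poly.decide_eq (NPC.Poly.decide_eq hv
    (poly_lk (p2 (p2 (p1 (p2 hc)))) hN ht2)) hb)) ?_
  refine NPC.Poly.ite (cc 2) (q_fin (NPC.Poly.decide_eq (NPC.Poly.decide_eq hv
    (poly_lk he hN ht2)) hb)) ?_
  refine NPC.Poly.ite (cc 3) (NPC.Poly.ite (NPC.Poly.decide_eq hEM hb) (NPC.Poly.ite
    (NPC.Poly.decide_lt hm' hKt) (nx hAt hB he hv (NPC.Poly.getD hM hm' (kk false))) (kk _))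
    (kk _)) ?_
  refine NPC.Poly.ite (NPC.Poly.decide_or (cc 6) (cc 7)) ?_ ?_
  · refine NPC.Poly.ite (dm (pp (pp hdl hB) (cc 6)) hmc) (q_fin (NPC.Poly.decide_eq (cc 6) hb)) ?_
    refine NPC.Poly.ite (NPC.Poly.decide_eq (p1 hc) (kk false))
      (q_fin (NPC.Poly.decide_eq (cc 7) hb)) ?_
    refine NPC.Poly.ite (NPC.Poly.decide_eq (cc 6) hb) ?_ ?_
    · exact NPC.Poly.ite (NPC.Poly.decide_lt hm hN) (nx hdl hB he hm hb) (kk _)
    · exact NPC.Poly.ite (NPC.Poly.decide_lt hm' hN) (nx hdl hB he hm' hb) (kk _)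
  refine NPC.Poly.ite (NPC.Poly.decide_and (cc 8) (dm ht hw)) ?_ (kk _)
  exact nx htl (NPC.Poly.cons ht2 hB) (NPC.Poly.cons (pp ht2 (NPC.Poly.min hv
    (NPC.Poly.length hM))) he) hv hb

theorem q_ph5 {K : ℕ → ℕ} {argX : List Tok → ℕ → List Tok} (hK : NPC.Poly K)
    (hA : NPC.Poly (fun p : List Tok × ℕ => argX p.1 p.2))
    {J : α → List TR.Key} {t : α → Tok} {tl : α → List Tok} {B : α → List ℕ}
    {M' : α → List Bool} (hJ : NPC.Poly J) (ht : NPC.Poly t) (htl : NPC.Poly tl)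
    (hB : NPC.Poly B) (hM' : NPC.Poly M') :
    NPC.Poly (fun a => TR.ph5 K argX (J a) (t a) (tl a) (B a) (M' a)) := by
  have cc : ∀ n : ℕ, NPC.Poly (fun a => decide ((t a).1 = n)) := fun n =>
    NPC.Poly.decide_eq (p1 ht) (kk n)
  have ht2 := p2 ht
  have hm' : NPC.Poly (fun a => valB (M' a)) := NPC.Poly.valBits hM'
  have hKt : NPC.Poly (fun a => K (t a).2) := hK.comp ht2
  have hAt : NPC.Poly (fun a => argX (t a :: tl a) (valB (M' a))) :=
    hA.comp (pp (NPC.Poly.cons ht htl) hm')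
  have hdl : NPC.Poly (fun a => (tl a).dropLast) :=
    (NPC.Poly.reverse (NPC.Poly.tail (NPC.Poly.reverse htl))).congr fun a => by
      rw [List.tail_reverse, List.reverse_reverse]
  unfold TR.ph5
  refine NPC.Poly.ite (cc 3) (NPC.Poly.ite (NPC.Poly.decide_lt hm' hKt)
    (q_ndS hJ (pp hAt hB)) (kk _)) ?_
  refine NPC.Poly.ite (NPC.Poly.decide_or (cc 6) (cc 7)) (q_fin (dm (pp hdl hB) hJ)) ?_
  exact NPC.Poly.ite (cc 8) (q_ndS hJ (pp htl (NPC.Poly.cons ht2 hB))) (kk _)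

theorem q_tstep {E : ℕ → List Bool → Bool} {K : ℕ → ℕ} {argX : List Tok → ℕ → List Tok}
    {wf : List Tok → Bool}
    (hE : NPC.Poly (fun p : ℕ × List Bool => E p.1 p.2)) (hK : NPC.Poly K)
    (hA : NPC.Poly (fun p : List Tok × ℕ => argX p.1 p.2)) (hwf : NPC.Poly wf)
    {w : α → List Tok} {s : α → TR.Gs} {M M' : α → List Bool} (hw : NPC.Poly w)
    (hs : NPC.Poly s) (hM : NPC.Poly M) (hM' : NPC.Poly M') :
    NPC.Poly (fun a => TR.tstep E K argX wf (w a) (s a) (M a) (M' a)) := by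
  have s11 := p1 (p1 hs)
  have s12 := p2 (p1 hs)
  have sSC := p1 (p1 (p2 hs))
  have sJ := p2 (p1 (p2 hs))
  have sZ := p1 (p1 (p2 (p2 hs)))
  have sm := p1 (p2 (p1 (p2 (p2 hs))))
  have sκ := p2 (p2 (p1 (p2 (p2 hs))))
  have se := p2 (p2 (p2 hs))
  have e1 := p1 se
  have e2 := p1 (p2 se)
  have e3 := p1 (p2 (p2 se))
  have e4 := p1 (p2 (p2 (p2 se)))
  have e5 := p1 (p2 (p2 (p2 (p2 se))))
  have e6 := p1 (p2 (p2 (p2 (p2 (p2 se)))))
  have e7 := p2 (p2 (p2 (p2 (p2 (p2 se)))))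
  have hsome : NPC.Poly (fun a => (s a).1.1.isSome) :=
    (NPC.Poly.optCases (g := fun _ => false) (h := fun _ _ => true) s11 (kk _)
      (kk _)).congr fun a => by cases (s a).1.1 <;> rfl
  have hch := q_chl hM'
  have hL : NPC.Poly (fun a => (M a).length) := NPC.Poly.length hM
  have g : NPC.Poly (fun p : α × Tok × List Tok => p.1) := p1 ii
  have h4 : NPC.Poly (fun a => match (s a).2.2.2.2.2.1 with
    | [] => TR.fin false
    | t :: tl => TR.ph4 E K argX (w a) (s a).2.2.2.1 (s a).2.2.2.2.1 t tl (s a).2.2.2.2.2.2.1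
        (s a).2.2.2.2.2.2.2.1 (s a).2.2.2.2.2.2.2.2.1 (s a).2.2.2.2.2.2.2.2.2 (M a) (M' a)) :=
    (NPC.Poly.listCases (g := fun _ => TR.fin false) (h := fun a t tl =>
      TR.ph4 E K argX (w a) (s a).2.2.2.1 (s a).2.2.2.2.1 t tl (s a).2.2.2.2.2.2.1
        (s a).2.2.2.2.2.2.2.1 (s a).2.2.2.2.2.2.2.2.1 (s a).2.2.2.2.2.2.2.2.2 (M a) (M' a)) e3
      (kk _) (q_ph4 hE hK hA (hw.comp g) (e1.comp g) (e2.comp g) (p1 (p2 ii)) (p2 (p2 ii))
        (e4.comp g) (e5.comp g) (e6.comp g) (e7.comp g) (hM.comp g)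
        (hM'.comp g))).congr fun a => by cases (s a).2.2.2.2.2.1 <;> rfl
  have h5 : NPC.Poly (fun a => match (s a).2.2.2.2.2.1 with
    | [] => TR.fin false
    | t :: tl => TR.ph5 K argX (s a).2.1.2 t tl (s a).2.2.2.2.2.2.1 (M' a)) :=
    (NPC.Poly.listCases (g := fun _ => TR.fin false) (h := fun a t tl =>
      TR.ph5 K argX (s a).2.1.2 t tl (s a).2.2.2.2.2.2.1 (M' a)) e3
      (kk _) (q_ph5 hK hA (sJ.comp g) (p1 (p2 ii)) (p2 (p2 ii)) (e4.comp g)
        (hM'.comp g))).congr fun a => by cases (s a).2.2.2.2.2.1 <;> rfl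
  unfold TR.tstep
  refine NPC.Poly.ite (NPC.Poly.decide_bool hsome) hs ?_
  refine NPC.Poly.ite (NPC.Poly.decide_eq s12 (kk 0)) (q_ph0 hM) ?_
  refine NPC.Poly.ite (NPC.Poly.decide_eq s12 (kk 1)) (q_ph1 hwf hw sSC sJ e6 hL hch) ?_
  refine NPC.Poly.ite (NPC.Poly.decide_eq s12 (kk 2))
    (q_ph2 hwf hw sSC sJ sZ sm (p1 (p2 (p2 (p2 hch))))) ?_
  refine NPC.Poly.ite (NPC.Poly.decide_eq s12 (kk 3))
    (q_ph3 hwf hw sSC sJ sZ sm sκ hM hch) ?_
  exact NPC.Poly.ite (NPC.Poly.decide_eq s12 (kk 4)) h4 h5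

end

end Pool.Agent.Helper16.TR5

namespace Pool.Agent.H75C.HY.TR

open Pool.Agent.NPC Pool.Agent.H75C.HY Pool.Agent.Helper16.TR5

theorem d5 : D5 := by
  intro E K argX wf hE hK hA hwf
  refine ⟨?_, ?_, ?_, ?_⟩
  · exact q_tstep hE hK hA hwf (p1 ii) (p1 (p2 ii)) (p1 (p2 (p2 ii))) (p2 (p2 (p2 ii)))
  · exact NPC.Poly.decide_eq (p1 (p1 ii)) (kk (some true))
  · have h2 : NPC.Poly (fun p : List Bool × List Tok => if wf p.2 = true then start
        else fin false) :=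
      NPC.Poly.ite (NPC.Poly.decide_bool (hwf.comp (p2 ii))) (kk _) (kk _)
    refine (NPC.Poly.optCases (g := fun _ => fin false) (h := fun _ (w : List Tok) =>
      if wf w = true then start else fin false) (poly_unbits (α := List Tok)) (kk _)
      h2).congr fun x => ?_
    unfold tini
    cases unbits (List Tok) x <;> rfl
  · refine (NPC.Poly.optCases (g := fun _ => ([] : List Tok)) (h := fun _ (w : List Tok) => w)
      (poly_unbits (α := List Tok)) (kk _) (p2 ii)).congr fun x => ?_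
    unfold aw
    cases unbits (List Tok) x <;> rfl

end Pool.Agent.H75C.HY.TR
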